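import Mathlib
import Pool.Agent.TH394.HadCheck

/-!
# A Hadamard matrix of order 4492

Four `±1` functions on `Z_1123` (nibble `x` of `Q` holds the four signs at the element `x`),
constant on the orbits of the multiplier group of order 33, with row sums
`1, 1, 1, 67` and total periodic autocorrelation `0`.
-/

set_option autoImplicit false

namespace Pool.Agent.V7H72.Had.N1123

open Pool.Agent.TH394

/-- the sequences -/
def Q : ℕ :=
  0xd611bdd284abe60e7f7a1815758110bbdebf6e788de2b224db2854422d1d4584f6f5b48ff125ab02422bfb87dbeef7f08614b70804a4b8ded7ab22764a644ffa4fe17f5815fa14bb0f12be5818d480f71af7b725df147f7bb6f1b50b4ffb8f80b4418d88441b8dfff0504827b4440b4b5bbb28d5fe4ebe51e408b100174f2f48106b85d26e1bb8b87de48f4802544b8b004f0dae818be808b252b648b4bd5bdbd2081feb248bfe14d6ff12dadb0f8b5455512b1d0ba8bd04da5bbb84748f42bd44b47752722bb824774abd8414861f4f4b5d44b0ba42e7be55b854f48da5b7844445bbf4beb246b41bbbf44bbbb578f25bb75d8244522d00824e508f771f44f2b2e0712bf4f82bbee1f5bd4b7ba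8bbef7b2bb520040f17f270be0847444b624bd0ed2a2b808bb86b8ffd48144b88807f84be0447114148d48574eb86f4bbe604f68e10622dff0bf4a74a54b4ffbb8d804bf10f8be20e065886d41dbfb27444e8a4b4485247bbbdbb004b2848b186000abbe8b44b41bba2a8bbf4e21b84b7ab8688b8dbb7debe884e5b47fed5fbdfb7b48edea8e8445b52b88d241ff172fbb44f748b840684b0b54db1281aa7d58b65a548b4bbb408478fb70f86d8f4f48eb8da48f04744b40bbf4874ebe5d7f051bb804d7bb5d44ff76a7454d1e1f8be881f1eb81475beb816f287b4aa48be8716408d44bee045b450884b1bfb5d0b44271fb7554e1bfd2e12fe4bbfb4db688e45f46b5bf28fe8bb8b481bde4b88bfbbb1d5bfdef477856188b7b0e0f45d4bf28ebf875ef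

set_option maxRecDepth 100000 in
theorem check : checkA (Fin 1123) Q 1123 = true := by decide +kernel

theorem had : HadOrder 4492 :=
  hadamard_checkA (Fin 1123) Q 1123 (by simp) check

end Pool.Agent.V7H72.Had.N1123
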